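import Pool.Agent.L0h98.T12.Par12

/-!
# Many curves with a point of order twelve
-/

set_option autoImplicit false

namespace Pool.Agent.L0h98.T12

open Pool.Agent.W307.RT Pool.Agent.W262.RK WeierstrassCurve.Affine Pool.Agent.W135.RT
  Pool.Agent.L0h5.T8 Pool.Agent.L0h98.T8 Finset

/-- the coefficient `A` -/
def Ac (P T : ℤ) : ℤ := 27 * (3 * T ^ 2 - P ^ 2)

/-- the coefficient `B` -/
def Bc (P T : ℤ) : ℤ := 27 * (P * (2 * P ^ 2 - 9 * T ^ 2))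

theorem disc_c (P T : ℤ) : 4 * Ac P T ^ 3 + 27 * Bc P T ^ 2 =
    27 ^ 4 * (T ^ 4 * ((2 * T + P) * (2 * T - P))) := by
  unfold Ac Bc
  ring

/-- the forms are determined by the curve -/
theorem injPT {P T P' T' : ℤ} (h : 0 < T) (h' : 0 < T')
    (hp : 0 < (2 * T + P) * (2 * T - P))
    (hA : Ac P T = Ac P' T') (hB : Bc P T = Bc P' T') : P = P' ∧ T = T' := by
  have hP : P = P' := by
    by_contra hne
    have r1 : 27 * P ^ 3 + 3 * Ac P T * P + Bc P T = 0 := by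
      unfold Ac Bc; ring
    have r2 : 27 * P' ^ 3 + 3 * Ac P T * P' + Bc P T = 0 := by
      rw [hA, hB]
      unfold Ac Bc; ring
    have r3 : (P - P') * (27 * (P ^ 2 + P * P' + P' ^ 2) + 3 * Ac P T) = 0 := by
      linear_combination r1 - r2
    have r4 := (mul_eq_zero.mp r3).resolve_left (sub_ne_zero.mpr hne)
    unfold Ac at r4
    nlinarith [sq_nonneg (2 * P' + P)]
  refine ⟨hP, ?_⟩
  have h1 : T ^ 2 = T' ^ 2 := by
    unfold Ac at hA
    rw [hP] at hA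
    linarith
  exact (pow_left_inj₀ h.le h'.le (by norm_num)).mp h1

/-- minimality -/
theorem minPT {P T : ℤ} (h2 : ¬ (2 : ℤ) ∣ T) (h2' : (2 : ℤ) ∣ P) (h3 : ¬ (3 : ℤ) ∣ P)
    (hPT : ∀ p : ℕ, p.Prime → p ≠ 2 → ¬ ((p : ℤ) ∣ P ∧ (p : ℤ) ∣ T)) (p : ℕ) (hp : p.Prime) :
    ¬ ((p : ℤ) ^ 4 ∣ Ac P T ∧ (p : ℤ) ^ 6 ∣ Bc P T) := by
  rintro ⟨hA, hB⟩
  have hpI : Prime (p : ℤ) := Nat.prime_iff_prime_int.1 hp
  by_cases hp2 : p = 2
  · subst hp2
    apply h2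
    have h1 : (2 : ℤ) ∣ Ac P T := (dvd_pow_self _ (by norm_num)).trans hA
    have h4 : (2 : ℤ) ∣ 81 * T ^ 2 := by
      have h5 : (2 : ℤ) ∣ 27 * P ^ 2 := Dvd.dvd.mul_left (dvd_pow h2' two_ne_zero) _
      have := dvd_add h1 h5
      have e : Ac P T + 27 * P ^ 2 = 81 * T ^ 2 := by unfold Ac; ring
      rwa [e] at this
    rcases Int.prime_two.dvd_or_dvd h4 with h | h
    · exfalso; omega
    · exact Int.prime_two.dvd_of_dvd_pow h
  by_cases hp3 : p = 3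
  · subst hp3
    apply h3
    have h1 : (3 : ℤ) ∣ 3 * T ^ 2 - P ^ 2 := by
      have h2 : (27 : ℤ) * 3 ∣ 27 * (3 * T ^ 2 - P ^ 2) := by
        have : ((3 : ℕ) : ℤ) ^ 4 = 27 * 3 := by norm_num
        rw [← this]
        exact hA
      exact Int.dvd_of_mul_dvd_mul_left (by norm_num) h2
    apply Int.prime_three.dvd_of_dvd_pow (n := 2)
    have h2 : (3 : ℤ) ∣ 3 * T ^ 2 := Dvd.intro _ rfl
    have := dvd_sub h2 h1
    have e : 3 * T ^ 2 - (3 * T ^ 2 - P ^ 2) = P ^ 2 := by ring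
    rwa [e] at this
  · have hp3' : ¬ (p : ℤ) ∣ 3 := by
      intro h
      have h3 : p ∣ 3 := by exact_mod_cast h
      rcases (Nat.dvd_prime Nat.prime_three).1 h3 with h4 | h4
      · exact hp.one_lt.ne' h4
      · exact hp3 h4
    have hp27 : ¬ (p : ℤ) ∣ 27 := by
      intro h
      have h1 : (p : ℤ) ∣ 3 ^ 3 := by norm_num; exact h
      exact hp3' (hpI.dvd_of_dvd_pow h1)
    have hq : (p : ℤ) ∣ 3 * T ^ 2 - P ^ 2 := by
      have h1 : (p : ℤ) ∣ Ac P T := (dvd_pow_self _ (by norm_num)).trans hA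
      unfold Ac at h1
      exact (hpI.dvd_or_dvd h1).resolve_left hp27
    have hr : (p : ℤ) ∣ P * (2 * P ^ 2 - 9 * T ^ 2) := by
      have h1 : (p : ℤ) ∣ Bc P T := (dvd_pow_self _ (by norm_num)).trans hB
      unfold Bc at h1
      exact (hpI.dvd_or_dvd h1).resolve_left hp27
    apply hPT p hp hp2
    rcases hpI.dvd_or_dvd hr with h | h
    · refine ⟨h, ?_⟩
      have h2 : (p : ℤ) ∣ 3 * T ^ 2 := by
        have := dvd_add hq (dvd_pow h (two_ne_zero))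
        have e : 3 * T ^ 2 - P ^ 2 + P ^ 2 = 3 * T ^ 2 := by ring
        rwa [e] at this
      exact hpI.dvd_of_dvd_pow ((hpI.dvd_or_dvd h2).resolve_left hp3')
    · have h2 : (p : ℤ) ∣ 3 * T ^ 2 := by
        have := dvd_add (Dvd.dvd.mul_left hq 2) h
        have e : 2 * (3 * T ^ 2 - P ^ 2) + (2 * P ^ 2 - 9 * T ^ 2) = -(3 * T ^ 2) := by ring
        rw [e] at this
        exact (Int.dvd_neg).1 this
      have hT := hpI.dvd_of_dvd_pow ((hpI.dvd_or_dvd h2).resolve_left hp3')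
      refine ⟨?_, hT⟩
      apply hpI.dvd_of_dvd_pow (n := 2)
      have := dvd_sub (Dvd.dvd.mul_left (dvd_pow hT (two_ne_zero)) 3) hq
      have e : 3 * T ^ 2 - (3 * T ^ 2 - P ^ 2) = P ^ 2 := by ring
      rwa [e] at this

theorem pos12 {u v : ℤ} (hu : 0 < u) (huv : 2 * u < v) :
    0 < v ^ 2 - 3 * u ^ 2 ∧ 0 < v ^ 2 - u ^ 2 ∧ 0 < v ∧ 0 < Dd u v ∧
      0 < (2 * Dd u v + Pd u v) * (2 * Dd u v - Pd u v) := by
  have hb : 0 < v := by linarith
  have h1 : (2 * u) ^ 2 < v ^ 2 := pow_lt_pow_left₀ huv (by linarith) (by norm_num)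
  have h2 : 0 < u ^ 2 := by positivity
  have h3 : 0 < v ^ 2 - u ^ 2 := by nlinarith
  have h4 : 0 < v ^ 2 - 3 * u ^ 2 := by nlinarith
  refine ⟨h4, h3, hb, ?_, ?_⟩
  · unfold Dd; positivity
  · have e : (2 * Dd u v + Pd u v) * (2 * Dd u v - Pd u v) =
        256 * (u ^ 6 * v ^ 2 * ((u ^ 2 + v ^ 2) ^ 3 * (v ^ 2 - 3 * u ^ 2))) := by
      unfold Pd Dd; ring
    rw [e]
    positivity

theorem disc12_ne {u v : ℤ} (hu : 0 < u) (huv : 2 * u < v) :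
    4 * Ac (Pd u v) (Dd u v) ^ 3 + 27 * Bc (Pd u v) (Dd u v) ^ 2 ≠ 0 := by
  rw [disc_c]
  obtain ⟨-, -, -, h4, h5⟩ := pos12 hu huv
  positivity

theorem hasP12 {u v : ℤ} (hu : 0 < u) (huv : 2 * u < v) :
    HasP 12 (Sh (Ac (Pd u v) (Dd u v)) (Bc (Pd u v) (Dd u v))) := by
  have hd := disc12_ne hu huv
  obtain ⟨-, p2, p3, p4, -⟩ := pos12 hu huv
  have huq : (0 : ℚ) < u := by exact_mod_cast hu
  have hvq : (0 : ℚ) < v := by exact_mod_cast p3
  have hb2 : (0 : ℚ) < (v : ℚ) ^ 2 - u ^ 2 := by exact_mod_cast p2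
  have hT0 : (0 : ℚ) < Dd u v := by exact_mod_cast p4
  have hT : (Dd u v : ℚ) = ((v : ℚ) ^ 2 - u ^ 2) ^ 3 * ((v : ℚ) ^ 2 + 3 * u ^ 2) := by
    unfold Dd; push_cast; ring
  have hP : (Pd u v : ℚ) = 64 * (u : ℚ) ^ 6 * v ^ 2 - 2 * (Dd u v : ℚ) := by
    unfold Pd; push_cast; ring
  have hA : ((Ac (Pd u v) (Dd u v) : ℤ) : ℚ) = 27 * (3 * (Dd u v : ℚ) ^ 2 - (Pd u v : ℚ) ^ 2) := by
    unfold Ac; push_cast; ring
  have hB : ((Bc (Pd u v) (Dd u v) : ℤ) : ℚ) = 27 * ((Pd u v : ℚ) * (2 * (Pd u v : ℚ) ^ 2 -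
      9 * (Dd u v : ℚ) ^ 2)) := by
    unfold Bc; push_cast; ring
  have e1 : (216 * (u : ℚ) ^ 3 * v * Dd u v) ^ 2 =
      (3 * (Pd u v : ℚ) + 9 * Dd u v) ^ 3 + (Ac (Pd u v) (Dd u v) : ℤ) *
        (3 * (Pd u v : ℚ) + 9 * Dd u v) + (Bc (Pd u v) (Dd u v) : ℤ) := by
    rw [hA, hB, hP]; ring
  have e2 : (0 : ℚ) ^ 2 = (3 * (Pd u v : ℚ)) ^ 3 + (Ac (Pd u v) (Dd u v) : ℤ) *
      (3 * (Pd u v : ℚ)) + (Bc (Pd u v) (Dd u v) : ℤ) := by
    rw [hA, hB]; ring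
  have e3 : (108 * (u : ℚ) ^ 2 * ((v : ℚ) ^ 2 - u ^ 2) ^ 4 * (u ^ 2 + v ^ 2)) ^ 2 =
      (3 * (Pd u v : ℚ) + 9 * ((v : ℚ) ^ 2 - u ^ 2) ^ 4) ^ 3 + (Ac (Pd u v) (Dd u v) : ℤ) *
        (3 * (Pd u v : ℚ) + 9 * ((v : ℚ) ^ 2 - u ^ 2) ^ 4) + (Bc (Pd u v) (Dd u v) : ℤ) := by
    rw [hA, hB, hP, hT]; ring
  have n1 := Pool.Agent.W376.RTL.nonsing hd e1
  have n2 := Pool.Agent.W376.RTL.nonsing hd e2
  have n3 := Pool.Agent.W376.RTL.nonsing hd e3
  have d1 := dbl' (m := 24 * (u : ℚ) ^ 3 * v) n1 (by positivity) n2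
    (by rw [hA, hP]; ring) (by rw [hP]; ring) (by rw [hP]; ring)
  have o2 := Pool.Agent.W376.RTL.two_tors n2
  have hy3 : 108 * (u : ℚ) ^ 2 * ((v : ℚ) ^ 2 - u ^ 2) ^ 4 * (u ^ 2 + v ^ 2) ≠ 0 := by
    have h1 : 0 < ((v : ℚ) ^ 2 - u ^ 2) ^ 4 := pow_pos hb2 4
    have h2 : 0 < 108 * (u : ℚ) ^ 2 * ((v : ℚ) ^ 2 - u ^ 2) ^ 4 * (u ^ 2 + v ^ 2) := by
      apply mul_pos (mul_pos (by positivity) h1) (by positivity)
    exact h2.ne'
  have o3 := Pool.Agent.W376.RTL.three_tors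
    (l := 3 * (3 * (u : ℚ) ^ 4 + 6 * u ^ 2 * v ^ 2 - v ^ 4)) n3 hy3
    (by rw [hA, hP, hT]; ring) (by rw [hP, hT]; ring)
  have : Fact (Nat.Prime 2) := ⟨Nat.prime_two⟩
  have f2 : 2 ^ 1 • Point.some _ _ n1 = Point.some _ _ n2 := by
    rw [pow_one, two_nsmul, d1]
  have f4 : 2 ^ (1 + 1) • Point.some _ _ n1 = 0 := by
    rw [pow_succ, mul_nsmul, f2, ← o2]
    exact addOrderOf_nsmul_eq_zero _
  have o4 : addOrderOf (Point.some _ _ n1) = 4 := by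
    have := addOrderOf_eq_prime_pow (p := 2) (n := 1) (x := Point.some _ _ n1) (by
      rw [f2]; exact Point.some_ne_zero n2) f4
    rw [this]
    norm_num
  refine ⟨Point.some _ _ n1 + Point.some _ _ n3, ?_⟩
  rw [(AddCommute.all (Point.some _ _ n1) (Point.some _ _ n3)).addOrderOf_add_eq_mul_addOrderOf_of_coprime
    (by rw [o4, o3]; norm_num), o4, o3]

theorem inj_uv {u v u' v' : ℤ} (hu : 0 < u) (huv : 2 * u < v) (hu' : 0 < u') (huv' : 2 * u' < v')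
    (hA : Ac (Pd u v) (Dd u v) = Ac (Pd u' v') (Dd u' v'))
    (hB : Bc (Pd u v) (Dd u v) = Bc (Pd u' v') (Dd u' v')) : u = u' ∧ v = v' := by
  obtain ⟨-, p2, p3, p4, p5⟩ := pos12 hu huv
  obtain ⟨-, p2', p3', p4', p5'⟩ := pos12 hu' huv'
  obtain ⟨hP, hT⟩ := injPT p4 p4' p5 hA hB
  have hS : u ^ 3 * v = u' ^ 3 * v' := by
    have h1 : (u ^ 3 * v) ^ 2 = (u' ^ 3 * v') ^ 2 := by
      have e1 : 64 * (u ^ 3 * v) ^ 2 = Pd u v + 2 * Dd u v := by unfold Pd; ring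
      have e2 : 64 * (u' ^ 3 * v') ^ 2 = Pd u' v' + 2 * Dd u' v' := by unfold Pd; ring
      rw [hP, hT, ← e2] at e1
      linarith
    exact (pow_left_inj₀ (by positivity) (by positivity) (by norm_num)).mp h1
  have key : ∀ u v u' v' : ℤ, 0 < u → u < v → 0 < u' → u' < v' → u < u' →
      u ^ 3 * v = u' ^ 3 * v' → Dd u v = Dd u' v' → False := by
    intro u v u' v' hu huv hu' huv' hlt hS hT
    have hv : 0 < v := hu.trans huv
    have hv' : 0 < v' := hu'.trans huv'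
    have h1 : v' < v := by
      by_contra hc
      push Not at hc
      have h2 : u ^ 3 < u' ^ 3 := pow_lt_pow_left₀ hlt hu.le (by norm_num)
      have h3 : u ^ 3 * v < u' ^ 3 * v' := by
        calc u ^ 3 * v < u' ^ 3 * v := mul_lt_mul_of_pos_right h2 hv
          _ ≤ u' ^ 3 * v' := mul_le_mul_of_nonneg_left hc (by positivity)
      exact absurd hS h3.ne
    -- in terms of squares
    set a := u ^ 2 with ha
    set a' := u' ^ 2 with ha'
    set b := v ^ 2 with hb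
    set b' := v' ^ 2 with hb'
    have ka : 0 < a := by positivity
    have kaa : a < a' := pow_lt_pow_left₀ hlt hu.le (by norm_num)
    have kab : a' < b' := pow_lt_pow_left₀ huv' hu'.le (by norm_num)
    have kbb : b' < b := pow_lt_pow_left₀ h1 hv'.le (by norm_num)
    have hT' : (b - a) ^ 3 * (b + 3 * a) = (b' - a') ^ 3 * (b' + 3 * a') := hT
    have s1 : (b' - a) ^ 3 * (b' + 3 * a) < (b - a) ^ 3 * (b + 3 * a) := by
      have t1 : (b' - a) ^ 3 < (b - a) ^ 3 :=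
        pow_lt_pow_left₀ (by linarith) (by linarith) (by norm_num)
      have t2 : 0 < (b' - a) ^ 3 := pow_pos (by linarith) 3
      exact mul_lt_mul t1 (by linarith) (by linarith) (pow_pos (by linarith) 3).le
    have s2 : (b' - a') ^ 3 * (b' + 3 * a') ≤ (b' - a) ^ 3 * (b' + 3 * a) := by
      have e : (b' - a) ^ 3 * (b' + 3 * a) - (b' - a') ^ 3 * (b' + 3 * a') =
          (a' - a) * (6 * (a + a') * b' ^ 2 - 8 * (a ^ 2 + a * a' + a' ^ 2) * b' +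
            3 * (a + a') * (a ^ 2 + a' ^ 2)) := by ring
      have e2 : 0 ≤ 6 * (a + a') * b' ^ 2 - 8 * (a ^ 2 + a * a' + a' ^ 2) * b' +
            3 * (a + a') * (a ^ 2 + a' ^ 2) := by
        have e3 : 6 * (a + a') * (6 * (a + a') * b' ^ 2 - 8 * (a ^ 2 + a * a' + a' ^ 2) * b' +
            3 * (a + a') * (a ^ 2 + a' ^ 2)) =
            (6 * (a + a') * b' - 4 * (a ^ 2 + a * a' + a' ^ 2)) ^ 2 +
            2 * (a - a') ^ 2 * (a ^ 2 + 4 * a * a' + a' ^ 2) := by ring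
        have e4 : 0 ≤ 6 * (a + a') * (6 * (a + a') * b' ^ 2 -
            8 * (a ^ 2 + a * a' + a' ^ 2) * b' + 3 * (a + a') * (a ^ 2 + a' ^ 2)) := by
          rw [e3]
          have : 0 < a' := ka.trans kaa
          positivity
        have e5 : 0 < 6 * (a + a') := by linarith
        exact nonneg_of_mul_nonneg_right e4 e5
      have e6 : 0 ≤ a' - a := by linarith
      have := mul_nonneg e6 e2
      linarith
    linarith
  have huu : u = u' := by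
    rcases lt_trichotomy u u' with h | h | h
    · exact (key u v u' v' hu (by linarith) hu' (by linarith) h hS hT).elim
    · exact h
    · exact (key u' v' u v hu' (by linarith) hu (by linarith) h hS.symm hT.symm).elim
  refine ⟨huu, ?_⟩
  rw [huu] at hS
  exact mul_left_cancel₀ (pow_ne_zero 3 hu'.ne') hS

theorem height12 {u v X : ℤ} (hu : 0 < u) (huv : 2 * u < v) (hb : v ≤ X) :
    4 * |Ac (Pd u v) (Dd u v)| ^ 3 ≤ 500000000 * X ^ 48 ∧
      27 * Bc (Pd u v) (Dd u v) ^ 2 ≤ 500000000 * X ^ 48 := by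
  obtain ⟨p1, p2, p3, p4, p5⟩ := pos12 hu huv
  have hX : 0 < X := by linarith
  have hb8 : v ^ 8 ≤ X ^ 8 := pow_le_pow_left₀ p3.le hb 8
  have hT1 : 0 ≤ Dd u v := p4.le
  have hT2 : Dd u v ≤ 2 * X ^ 8 := by
    have h1 : (v ^ 2 - u ^ 2) ^ 3 ≤ (v ^ 2) ^ 3 :=
      pow_le_pow_left₀ p2.le (by nlinarith [sq_nonneg u]) 3
    have h2 : v ^ 2 + 3 * u ^ 2 ≤ 2 * v ^ 2 := by linarith
    unfold Dd
    calc (v ^ 2 - u ^ 2) ^ 3 * (v ^ 2 + 3 * u ^ 2) ≤ (v ^ 2) ^ 3 * (2 * v ^ 2) :=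
          mul_le_mul h1 h2 (by positivity) (by positivity)
      _ = 2 * v ^ 8 := by ring
      _ ≤ _ := by linarith
  have hu6 : 64 * u ^ 6 * v ^ 2 ≤ X ^ 8 := by
    have h1 : (2 * u) ^ 6 ≤ v ^ 6 := pow_le_pow_left₀ (by linarith) huv.le 6
    calc 64 * u ^ 6 * v ^ 2 = (2 * u) ^ 6 * v ^ 2 := by ring
      _ ≤ v ^ 6 * v ^ 2 := mul_le_mul_of_nonneg_right h1 (sq_nonneg _)
      _ = v ^ 8 := by ring
      _ ≤ _ := hb8
  have hu60 : 0 ≤ 64 * u ^ 6 * v ^ 2 := by positivity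
  have hX8 : 0 < X ^ 8 := by positivity
  have hP : |Pd u v| ≤ 4 * X ^ 8 := by
    unfold Pd
    rw [abs_le]
    constructor <;> linarith
  set P := Pd u v with hPdef
  set T := Dd u v with hTdef
  have hP2 : P ^ 2 ≤ 16 * X ^ 16 := by
    rw [← sq_abs]
    calc |P| ^ 2 ≤ (4 * X ^ 8) ^ 2 := pow_le_pow_left₀ (abs_nonneg _) hP 2
      _ = _ := by ring
  have hTT : T ^ 2 ≤ 4 * X ^ 16 := by
    calc T ^ 2 ≤ (2 * X ^ 8) ^ 2 := pow_le_pow_left₀ hT1 hT2 2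
      _ = _ := by ring
  have hP20 := sq_nonneg P
  have hT20 := sq_nonneg T
  have hX16 : 0 < X ^ 16 := by positivity
  have hA : |Ac P T| ≤ 432 * X ^ 16 := by
    unfold Ac
    rw [abs_le]
    constructor <;> linarith
  have hB : |Bc P T| ≤ 3888 * X ^ 24 := by
    unfold Bc
    rw [abs_mul, abs_mul]
    have h1 : |2 * P ^ 2 - 9 * T ^ 2| ≤ 36 * X ^ 16 := by
      rw [abs_le]
      constructor <;> linarith
    have h2 : |(27 : ℤ)| = 27 := by norm_num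
    rw [h2]
    calc 27 * (|P| * |2 * P ^ 2 - 9 * T ^ 2|) ≤ 27 * ((4 * X ^ 8) * (36 * X ^ 16)) := by
          apply mul_le_mul_of_nonneg_left _ (by norm_num)
          exact mul_le_mul hP h1 (abs_nonneg _) (by positivity)
      _ = _ := by ring
  have hX48 : 0 ≤ X ^ 48 := by positivity
  constructor
  · calc 4 * |Ac P T| ^ 3 ≤ 4 * (432 * X ^ 16) ^ 3 := by
          apply mul_le_mul_of_nonneg_left _ (by norm_num)
          exact pow_le_pow_left₀ (abs_nonneg _) hA 3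
      _ = 322486272 * X ^ 48 := by ring
      _ ≤ _ := by linarith
  · rw [← sq_abs]
    calc 27 * |Bc P T| ^ 2 ≤ 27 * (3888 * X ^ 24) ^ 2 := by
          apply mul_le_mul_of_nonneg_left _ (by norm_num)
          exact pow_le_pow_left₀ (abs_nonneg _) hB 2
      _ = 408146688 * X ^ 48 := by ring
      _ ≤ _ := by linarith

theorem min12 {u v : ℤ} (hc : IsCoprime u v) (h6 : 6 ∣ u) (p : ℕ) (hp : p.Prime) :
    ¬ ((p : ℤ) ^ 4 ∣ Ac (Pd u v) (Dd u v) ∧ (p : ℤ) ^ 6 ∣ Bc (Pd u v) (Dd u v)) := by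
  have hcop : ∀ q : ℤ, Prime q → ¬ (q ∣ u ∧ q ∣ v) := by
    rintro q hq ⟨h1, h2⟩
    exact hq.not_isUnit (hc.isUnit_of_dvd' h1 h2)
  obtain ⟨k, hk⟩ := h6
  have hDv : Dd u v = v ^ 8 - u * (6 * u ^ 3 * v ^ 4 - 8 * u ^ 5 * v ^ 2 + 3 * u ^ 7) := by
    unfold Dd; ring
  -- `q ∣ u` and `q ∣ D` is impossible
  have hq : ∀ q : ℤ, Prime q → q ∣ u → ¬ q ∣ Dd u v := by
    intro q hq hqu hqD
    apply hcop q hq
    refine ⟨hqu, ?_⟩
    rw [hDv] at hqD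
    have h1 : q ∣ u * (6 * u ^ 3 * v ^ 4 - 8 * u ^ 5 * v ^ 2 + 3 * u ^ 7) := Dvd.dvd.mul_right hqu _
    have h2 := dvd_add hqD h1
    rw [sub_add_cancel] at h2
    exact hq.dvd_of_dvd_pow h2
  have h2u : (2 : ℤ) ∣ u := ⟨3 * k, by rw [hk]; ring⟩
  have h3u : (3 : ℤ) ∣ u := ⟨2 * k, by rw [hk]; ring⟩
  apply minPT (hq 2 Int.prime_two h2u) ?_ ?_ ?_ p hp
  · exact ⟨32 * u ^ 6 * v ^ 2 - Dd u v, by unfold Pd; ring⟩
  · intro h
    apply hq 3 Int.prime_three h3u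
    have h1 : (3 : ℤ) ∣ 2 * Dd u v := by
      have h2 : (3 : ℤ) ∣ 64 * u ^ 6 * v ^ 2 :=
        Dvd.dvd.mul_right (Dvd.dvd.mul_left (dvd_pow h3u (by norm_num)) _) _
      have := dvd_sub h2 h
      have e : 64 * u ^ 6 * v ^ 2 - Pd u v = 2 * Dd u v := by unfold Pd; ring
      rwa [e] at this
    rcases Int.prime_three.dvd_or_dvd h1 with h | h
    · exfalso; omega
    · exact h
  · rintro p hp hp2 ⟨h1, h2⟩
    have hpI : Prime (p : ℤ) := Nat.prime_iff_prime_int.1 hp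
    have h3 : (p : ℤ) ∣ 64 * (u ^ 6 * v ^ 2) := by
      have := dvd_add h1 (Dvd.dvd.mul_left h2 2)
      have e : Pd u v + 2 * Dd u v = 64 * (u ^ 6 * v ^ 2) := by unfold Pd; ring
      rwa [e] at this
    rcases hpI.dvd_or_dvd h3 with h | h
    · have h6 : (p : ℤ) ∣ 2 ^ 6 := by norm_num; exact h
      have h7 := hpI.dvd_of_dvd_pow h6
      have h8 : p ∣ 2 := by exact_mod_cast h7
      rcases (Nat.dvd_prime Nat.prime_two).1 h8 with h9 | h9
      · exact hp.one_lt.ne' h9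
      · exact hp2 h9
    · rcases hpI.dvd_or_dvd h with h | h
      · exact hq p hpI (hpI.dvd_of_dvd_pow h) h2
      · have hpv := hpI.dvd_of_dvd_pow h
        have h4 : (p : ℤ) ∣ 3 * u ^ 8 := by
          have e3 : 3 * u ^ 8 = v * (v * (v ^ 6 - 6 * u ^ 4 * v ^ 2 + 8 * u ^ 6)) - Dd u v := by
            unfold Dd; ring
          rw [e3]
          exact dvd_sub (Dvd.dvd.mul_right hpv _) h2
        rcases hpI.dvd_or_dvd h4 with h | h
        · -- `p = 3`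
          exact hcop p hpI ⟨h.trans h3u, hpv⟩
        · exact hcop p hpI ⟨hpI.dvd_of_dvd_pow h, hpv⟩

/-- LOW12c -/
theorem low12c : LOW12c := by
  refine ⟨1 / 43200, 500000000, 180, by norm_num, fun T H hT hH => ?_⟩
  set K := T / 180 with hK
  have hKT : 180 * K ≤ T := Nat.mul_div_le T 180
  have hKT' : (T : ℝ) ≤ 360 * K := by
    have h1 : T < 180 * (K + 1) := Nat.lt_mul_div_succ T (by norm_num)
    have h2 : T ≤ 360 * K := by omega
    exact_mod_cast h2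
  have hG := card_GG8 K
  have hcard : (GG8 K).card ≤ (Cc 12 H).card := by
    classical
    apply card_le_card_of_injOn
      (fun t : ℕ × ℕ => (Ac (Pd ((6 * t.2 : ℕ) : ℤ) (t.1 : ℤ)) (Dd ((6 * t.2 : ℕ) : ℤ) (t.1 : ℤ)),
        Bc (Pd ((6 * t.2 : ℕ) : ℤ) (t.1 : ℤ)) (Dd ((6 * t.2 : ℕ) : ℤ) (t.1 : ℤ))))
    · intro t ht
      rw [GG8, coe_filter, Set.mem_ofPred_eq, mem_product, mem_Ioc, mem_Ioc] at ht
      obtain ⟨⟨⟨hu0, hu1⟩, hw0, hw1⟩, hc, hlt⟩ := ht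
      have hv0 : (0 : ℤ) < ((6 * t.2 : ℕ) : ℤ) := by exact_mod_cast (by omega : 0 < 6 * t.2)
      have huv : 2 * ((6 * t.2 : ℕ) : ℤ) < (t.1 : ℤ) := by
        exact_mod_cast (by omega : 2 * (6 * t.2) < t.1)
      have huT : (t.1 : ℤ) ≤ (T : ℤ) := by exact_mod_cast hu1.trans hKT
      have hcz : IsCoprime ((6 * t.2 : ℕ) : ℤ) (t.1 : ℤ) :=
        (Nat.isCoprime_iff_coprime.2 hc).symm
      have h6 : (6 : ℤ) ∣ ((6 * t.2 : ℕ) : ℤ) := by
        push_cast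
        exact Dvd.intro _ rfl
      obtain ⟨g1, g2⟩ := height12 hv0 huv huT
      have hH' : (500000000 : ℤ) * (T : ℤ) ^ 48 ≤ (H : ℤ) := by exact_mod_cast hH
      have g1' := g1.trans hH'
      have g2' := g2.trans hH'
      have hd := disc12_ne hv0 huv
      have hm := min12 hcz h6
      have hp := hasP12 hv0 huv
      simp only
      generalize Ac (Pd ((6 * t.2 : ℕ) : ℤ) (t.1 : ℤ)) (Dd ((6 * t.2 : ℕ) : ℤ) (t.1 : ℤ)) = A at *
      generalize Bc (Pd ((6 * t.2 : ℕ) : ℤ) (t.1 : ℤ)) (Dd ((6 * t.2 : ℕ) : ℤ) (t.1 : ℤ)) = B at *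
      have b1 : |A| ≤ (H : ℤ) := by
        have h0 := abs_nonneg A
        refine le_trans ?_ g1'
        generalize |A| = a at *
        rcases h0.eq_or_lt with h | h
        · rw [← h]; norm_num
        · have h1 : 1 ≤ a := h
          have h2 : 1 ≤ a ^ 2 := one_le_pow₀ h1
          nlinarith
      have b2 : |B| ≤ (H : ℤ) := by
        refine le_trans ?_ g2'
        rw [← sq_abs]
        have h0 := abs_nonneg B
        generalize |B| = a at *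
        rcases h0.eq_or_lt with h | h
        · rw [← h]; norm_num
        · have h1 : 1 ≤ a := h
          nlinarith
      rw [abs_le] at b1 b2
      rw [Cc, coe_filter, Set.mem_ofPred_eq, mem_product, mem_Icc, mem_Icc]
      exact ⟨⟨b1, b2⟩, hd, g1', g2', hm, hp⟩
    · intro t ht t' ht' h
      rw [GG8, coe_filter, Set.mem_ofPred_eq, mem_product, mem_Ioc, mem_Ioc] at ht ht'
      obtain ⟨⟨⟨hu0, hu1⟩, hw0, hw1⟩, hc, hlt⟩ := ht
      obtain ⟨⟨⟨hu0', hu1'⟩, hw0', hw1'⟩, hc', hlt'⟩ := ht'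
      have hv0 : (0 : ℤ) < ((6 * t.2 : ℕ) : ℤ) := by exact_mod_cast (by omega : 0 < 6 * t.2)
      have huv : 2 * ((6 * t.2 : ℕ) : ℤ) < (t.1 : ℤ) := by
        exact_mod_cast (by omega : 2 * (6 * t.2) < t.1)
      have hv0' : (0 : ℤ) < ((6 * t'.2 : ℕ) : ℤ) := by exact_mod_cast (by omega : 0 < 6 * t'.2)
      have huv' : 2 * ((6 * t'.2 : ℕ) : ℤ) < (t'.1 : ℤ) := by
        exact_mod_cast (by omega : 2 * (6 * t'.2) < t'.1)
      simp only [Prod.mk.injEq] at h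
      obtain ⟨e1, e2⟩ := inj_uv hv0 huv hv0' huv' h.1 h.2
      apply Prod.ext
      · exact_mod_cast e2
      · have e3 : 6 * t.2 = 6 * t'.2 := by exact_mod_cast e1
        omega
  have hcard' : ((GG8 K).card : ℝ) ≤ ((Cc 12 H).card : ℝ) := by exact_mod_cast hcard
  have hT0 : (0 : ℝ) ≤ T := Nat.cast_nonneg _
  have : (T : ℝ) ^ 2 ≤ (360 * K) ^ 2 := by gcongr
  nlinarith

end Pool.Agent.L0h98.T12
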