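import Pool.Agent.L0h98.T12.Gen

/-!
# Parametrisation of the curves with a point of order twelve
-/

set_option autoImplicit false

namespace Pool.Agent.L0h98.T12

open Pool.Agent.W307.RT Pool.Agent.W262.RK WeierstrassCurve.Affine Pool.Agent.W135.RT
  Pool.Agent.L0h5.T8 Pool.Agent.L0h98.T8

/-- four times `t` -/
def Dd (u v : ℤ) : ℤ := (v ^ 2 - u ^ 2) ^ 3 * (v ^ 2 + 3 * u ^ 2)

/-- four times the coefficient -/
def Pd (u v : ℤ) : ℤ := 64 * u ^ 6 * v ^ 2 - 2 * Dd u v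

theorem PM (u v : ℤ) : Pd u v + 2 * Dd u v = -(4 * M12 u v) := by
  unfold Pd M12; ring

theorem PN (u v : ℤ) : Pd u v - 2 * Dd u v = -(4 * N12 u v) := by
  unfold Pd Dd N12; ring

/-- the data attached to a curve with a point of order twelve -/
structure R12 (A B u v : ℤ) (c : ℚ) : Prop where
  c0 : c ≠ 0
  cop : IsCoprime u v
  u0 : u ≠ 0
  v0 : v ≠ 0
  uv : v ^ 2 - u ^ 2 ≠ 0
  n0 : N12 u v ≠ 0
  ea : 48 * (A : ℚ) = c ^ 4 * (3 * (Dd u v : ℚ) ^ 2 - (Pd u v : ℚ) ^ 2)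
  eb : 1728 * (B : ℚ) = c ^ 6 * ((Pd u v : ℚ) * (2 * (Pd u v : ℚ) ^ 2 - 9 * (Dd u v : ℚ) ^ 2))
  hi : ∃ i : ℤ, c ^ 2 * (16 * (u : ℚ) ^ 6 * v ^ 2) = i
  hj : ∃ j : ℤ, c ^ 2 * (Dd u v : ℚ) = j

theorem exR12 {A B : ℤ} (hD : 4 * A ^ 3 + 27 * B ^ 2 ≠ 0) (hT : HasP 12 (Sh A B)) :
    ∃ (u v : ℤ) (c : ℚ), R12 A B u v c := by
  obtain ⟨e, s, t, w, r, ht, hs, hw, hroot, h1, h2, h3, h4⟩ := alg12 hT
  have hrw : r - w ≠ 0 := by
    intro h
    rw [h] at h4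
    have : (2 * w * s) ^ 2 = 0 := by rw [h4]; ring
    have h5 : (2 * w * s) ^ 2 ≠ 0 := by positivity
    exact h5 this
  set ρ : ℚ := 2 * w * s / (r - w) ^ 2 with hρ
  have hρ0 : ρ ≠ 0 := by
    rw [hρ]
    exact div_ne_zero (by positivity) (pow_ne_zero 2 hrw)
  have hρ2 : ρ ^ 2 * (r - w) = r + 3 * w := by
    rw [hρ, div_pow, h4]
    field_simp
  have hρ3 : ρ * (r - w) ^ 2 = 2 * w * s := by
    rw [hρ]; field_simp
  set v : ℤ := ρ.num with hv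
  set u : ℤ := (ρ.den : ℤ) with hu
  have hu0 : (u : ℚ) ≠ 0 := by rw [hu]; exact_mod_cast ρ.den_nz
  have huv : (v : ℚ) / u = ρ := by rw [hu, hv]; exact_mod_cast Rat.num_div_den ρ
  have hv0 : (v : ℚ) ≠ 0 := by
    intro h; apply hρ0; rw [← huv, h, zero_div]
  have hvρ : (v : ℚ) = ρ * u := by rw [← huv]; field_simp
  set k : ℚ := (r - w) / (u : ℚ) ^ 2 with hk
  have k1 : r - w = k * (u : ℚ) ^ 2 := by rw [hk]; field_simp
  have k2 : r + 3 * w = k * (v : ℚ) ^ 2 := by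
    rw [← hρ2, k1, hvρ]; ring
  have hk0 : k ≠ 0 := by
    intro h; apply hrw; rw [k1, h]; ring
  have k3 : 4 * w = k * ((v : ℚ) ^ 2 - u ^ 2) := by linear_combination k2 - k1
  have hδ : (v : ℚ) ^ 2 - (u : ℚ) ^ 2 ≠ 0 := by
    intro h
    rw [h, mul_zero] at k3
    apply hw
    linarith
  have k4 : 4 * r = k * ((v : ℚ) ^ 2 + 3 * u ^ 2) := by linear_combination k2 + 3 * k1
  set c : ℚ := k / (2 * ((v : ℚ) ^ 2 - u ^ 2)) with hc
  have hc0 : c ≠ 0 := div_ne_zero hk0 (mul_ne_zero two_ne_zero hδ)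
  have hkc : k = 2 * c * ((v : ℚ) ^ 2 - u ^ 2) := by rw [hc]; field_simp
  have hs1 : s = c * (4 * (u : ℚ) ^ 3 * v) := by
    have h5 : 2 * w ≠ 0 := mul_ne_zero two_ne_zero hw
    apply mul_left_cancel₀ h5
    have e1 : 2 * w * s = ρ * (r - w) ^ 2 := hρ3.symm
    have e2 : 2 * w = c * ((v : ℚ) ^ 2 - u ^ 2) ^ 2 := by
      linear_combination (1 / 2) * k3 + (1 / 2) * ((v : ℚ) ^ 2 - u ^ 2) * hkc
    rw [e1, k1, e2, hkc, hvρ]
    ring
  have ht1 : 4 * t = c ^ 2 * (Dd u v : ℚ) := by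
    have : (Dd u v : ℚ) = ((v : ℚ) ^ 2 - u ^ 2) ^ 3 * ((v : ℚ) ^ 2 + 3 * u ^ 2) := by
      unfold Dd; push_cast; ring
    rw [this, h3]
    calc 4 * (r * w) = (1 / 4) * (4 * r) * (4 * w) := by ring
      _ = _ := by rw [k3, k4, hkc]; ring
  have he1 : 12 * e = c ^ 2 * (Pd u v : ℚ) := by
    have : (Pd u v : ℚ) = 64 * (u : ℚ) ^ 6 * v ^ 2 - 2 * (Dd u v : ℚ) := by
      unfold Pd; push_cast; ring
    rw [this]
    linear_combination -4 * h2 - 2 * ht1 + 4 * (s + c * (4 * (u : ℚ) ^ 3 * v)) * hs1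
  have hA : (A : ℚ) = t ^ 2 - 3 * e ^ 2 := by linarith
  have hB : (B : ℚ) = -(e ^ 3 + A * e) := by linarith
  have ea : 48 * (A : ℚ) = c ^ 4 * (3 * (Dd u v : ℚ) ^ 2 - (Pd u v : ℚ) ^ 2) := by
    rw [hA]
    linear_combination 3 * (4 * t + c ^ 2 * (Dd u v : ℚ)) * ht1 -
      (12 * e + c ^ 2 * (Pd u v : ℚ)) * he1
  have eb : 1728 * (B : ℚ) = c ^ 6 * ((Pd u v : ℚ) * (2 * (Pd u v : ℚ) ^ 2 -
      9 * (Dd u v : ℚ) ^ 2)) := by
    have h5 : c ^ 6 * ((Pd u v : ℚ) * (2 * (Pd u v : ℚ) ^ 2 - 9 * (Dd u v : ℚ) ^ 2)) =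
        (c ^ 2 * (Pd u v : ℚ)) * (2 * (c ^ 2 * (Pd u v : ℚ)) ^ 2 -
          9 * (c ^ 2 * (Dd u v : ℚ)) ^ 2) := by ring
    rw [h5, ← ht1, ← he1, hB, hA]
    ring
  obtain ⟨e', he'⟩ := int_root hroot
  obtain ⟨t', ht'⟩ := int_of_sq (q := t) (n := 3 * e' ^ 2 + A) (by
    push_cast; rw [← he']; exact h1)
  obtain ⟨s', hs'⟩ := int_of_sq (q := s) (n := 3 * e' + 2 * t') (by
    push_cast; rw [← he', ← ht']; exact h2)
  refine ⟨u, v, c, hc0, ?_, ?_, ?_, ?_, ?_, ea, eb, ?_, ?_⟩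
  · rw [hu, hv, Int.isCoprime_iff_gcd_eq_one, Int.gcd_comm]
    exact ρ.reduced
  · exact_mod_cast hu0
  · exact_mod_cast hv0
  · exact_mod_cast hδ
  · intro h
    have h5 : Pd u v = 2 * Dd u v := by
      have := PN u v
      rw [h] at this
      linarith
    apply hD
    have h6 : 4 * (A : ℚ) ^ 3 + 27 * (B : ℚ) ^ 2 = 0 := by
      have ea' : (A : ℚ) = c ^ 4 * (3 * (Dd u v : ℚ) ^ 2 - (Pd u v : ℚ) ^ 2) / 48 := by
        rw [← ea]; ring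
      have eb' : (B : ℚ) = c ^ 6 * ((Pd u v : ℚ) * (2 * (Pd u v : ℚ) ^ 2 -
          9 * (Dd u v : ℚ) ^ 2)) / 1728 := by
        rw [← eb]; ring
      rw [ea', eb', h5]
      push_cast
      ring
    exact_mod_cast h6
  · refine ⟨s' ^ 2, ?_⟩
    push_cast
    rw [← hs', hs1]
    ring
  · refine ⟨4 * t', ?_⟩
    push_cast
    rw [← ht', ht1]

theorem bez12 {u v : ℤ} (h : IsCoprime u v) :
    ∃ x y : ℤ, x * (16 * u ^ 6 * v ^ 2) + y * Dd u v = 48 := by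
  have h1 : IsCoprime (u ^ 6) (Dd u v) := by
    apply IsCoprime.pow_left
    unfold Dd
    apply IsCoprime.mul_right
    · apply IsCoprime.pow_right
      have : v ^ 2 - u ^ 2 = v ^ 2 + u * (-u) := by ring
      rw [this]
      exact (IsCoprime.add_mul_left_right_iff).mpr (IsCoprime.pow_right h)
    · have : v ^ 2 + 3 * u ^ 2 = v ^ 2 + u * (3 * u) := by ring
      rw [this]
      exact (IsCoprime.add_mul_left_right_iff).mpr (IsCoprime.pow_right h)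
  have h2 : IsCoprime (v ^ 2) (u ^ 8) := IsCoprime.pow h.symm
  obtain ⟨x1, y1, e1⟩ := h1
  obtain ⟨p, q, e2⟩ := h2
  -- `3 u ^ 8 = - D + v ^ 2 (...)`
  have e3 : 3 * u ^ 8 = -Dd u v + v ^ 2 * (v ^ 6 - 6 * u ^ 4 * v ^ 2 + 8 * u ^ 6) := by
    unfold Dd; ring
  set z := v ^ 6 - 6 * u ^ 4 * v ^ 2 + 8 * u ^ 6 with hz
  -- `3 = v ^ 2 (3 p + q z) - q D`
  have e4 : v ^ 2 * (3 * p + q * z) - q * Dd u v = 3 := by
    linear_combination 3 * e2 - q * e3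
  refine ⟨x1 * (3 * p + q * z), 48 * y1 - 16 * x1 * u ^ 6 * q, ?_⟩
  linear_combination 48 * e1 + 16 * x1 * u ^ 6 * e4

theorem c_ge {A B u v : ℤ} {c : ℚ} (hR : R12 A B u v c) : 1 ≤ 48 * c ^ 2 := by
  obtain ⟨x, y, hxy⟩ := bez12 hR.cop
  obtain ⟨i, hi⟩ := hR.hi
  obtain ⟨j, hj⟩ := hR.hj
  have h1 : 48 * c ^ 2 = ((x * i + y * j : ℤ) : ℚ) := by
    push_cast
    rw [← hi, ← hj]
    have : ((x * (16 * u ^ 6 * v ^ 2) + y * Dd u v : ℤ) : ℚ) = 48 := by rw [hxy]; norm_num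
    push_cast at this
    linear_combination -c ^ 2 * this
  have hs2 : 0 < c ^ 2 := by have := hR.c0; positivity
  rw [h1]
  have h3 : (0 : ℚ) < ((x * i + y * j : ℤ) : ℚ) := by rw [← h1]; linarith
  have h4 : (0 : ℤ) < x * i + y * j := by exact_mod_cast h3
  exact_mod_cast h4

/-- the size of the parameters -/
theorem size12 (u v : ℤ) (m : ℤ) (hP : |Pd u v| ≤ m) (hT : |Dd u v| ≤ m) (w : ℤ)
    (hw : w = u ∨ w = v) : w ^ 8 ≤ 8 * m := by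
  have hm : 0 ≤ m := (abs_nonneg _).trans hP
  have g1 : 64 * (u ^ 6 * v ^ 2) ≤ 3 * m := by
    have h1 : 64 * (u ^ 6 * v ^ 2) = Pd u v + 2 * Dd u v := by unfold Pd; ring
    have h2 := le_abs_self (Pd u v)
    have h3 := le_abs_self (Dd u v)
    linarith
  have key : ∀ a b z : ℤ, 0 ≤ a → 0 ≤ b → a ≤ z → b ≤ z → (z = a ∨ z = b) →
      64 * (a ^ 3 * b) ≤ 3 * m → |(b - a) ^ 3 * (b + 3 * a)| ≤ m → z ^ 4 ≤ 8 * m := by
    intro a b z ha hb haz hbz hz h1 h2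
    have hz0 : 0 ≤ z := ha.trans haz
    have hz3 : 0 ≤ z ^ 3 := by positivity
    by_cases hc : z ≤ 2 * |b - a|
    · have h3 : z ^ 3 ≤ (2 * |b - a|) ^ 3 := pow_le_pow_left₀ hz0 hc 3
      have h4 : z ≤ b + 3 * a := by rcases hz with rfl | rfl <;> linarith
      have h5 : z ^ 3 * z ≤ (2 * |b - a|) ^ 3 * (b + 3 * a) :=
        mul_le_mul h3 h4 hz0 (by positivity)
      have h6 : |(b - a) ^ 3 * (b + 3 * a)| = |b - a| ^ 3 * (b + 3 * a) := by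
        rw [abs_mul, abs_pow, abs_of_nonneg (by linarith : 0 ≤ b + 3 * a)]
      rw [h6] at h2
      calc z ^ 4 = z ^ 3 * z := by ring
        _ ≤ _ := h5
        _ = 8 * (|b - a| ^ 3 * (b + 3 * a)) := by ring
        _ ≤ 8 * m := by linarith
    · push Not at hc
      have h3 : z ≤ 2 * a := by
        rcases hz with h | h
        · linarith
        · have := le_abs_self (b - a)
          rw [← h] at this
          rw [← h] at hc
          linarith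
      have h4 : z ≤ 2 * b := by
        rcases hz with h | h
        · have := neg_abs_le (b - a)
          rw [← h] at this
          rw [← h] at hc
          linarith
        · linarith
      have h5 : z ^ 3 * z ≤ (2 * a) ^ 3 * (2 * b) :=
        mul_le_mul (pow_le_pow_left₀ hz0 h3 3) h4 hz0 (by positivity)
      calc z ^ 4 = z ^ 3 * z := by ring
        _ ≤ _ := h5
        _ = 16 * (a ^ 3 * b) := by ring
        _ ≤ 8 * m := by linarith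
  have h7 : |(v ^ 2 - u ^ 2) ^ 3 * (v ^ 2 + 3 * u ^ 2)| ≤ m := hT
  have g1' : 64 * ((u ^ 2) ^ 3 * v ^ 2) ≤ 3 * m := by
    have : (u ^ 2) ^ 3 * v ^ 2 = u ^ 6 * v ^ 2 := by ring
    rw [this]; exact g1
  have hzz : (max (u ^ 2) (v ^ 2)) ^ 4 ≤ 8 * m :=
    key (u ^ 2) (v ^ 2) (max (u ^ 2) (v ^ 2)) (sq_nonneg _) (sq_nonneg _) (le_max_left _ _)
      (le_max_right _ _) (by rcases le_total (u ^ 2) (v ^ 2) with h | h
                             · right; exact max_eq_right h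
                             · left; exact max_eq_left h) g1' h7
  have h8 : w ^ 2 ≤ max (u ^ 2) (v ^ 2) := by
    rcases hw with rfl | rfl
    · exact le_max_left _ _
    · exact le_max_right _ _
  calc w ^ 8 = (w ^ 2) ^ 4 := by ring
    _ ≤ (max (u ^ 2) (v ^ 2)) ^ 4 := pow_le_pow_left₀ (sq_nonneg _) h8 4
    _ ≤ _ := hzz

theorem bound12 {A B u v : ℤ} {c : ℚ} (hR : R12 A B u v c) (H : ℕ)
    (hH : 4 * |A| ^ 3 ≤ (H : ℤ)) (hH' : 27 * B ^ 2 ≤ (H : ℤ)) (w : ℤ) (hw : w = u ∨ w = v) :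
    w.natAbs ^ 48 ≤ 8 ^ 6 * (48 ^ 6 * 23887872) * H := by
  have h1 := bndG (c_ge hR) hR.ea hR.eb H hH hH'
  set m := max |Pd u v| |Dd u v| with hm
  have h2 := size12 u v m (le_max_left _ _) (le_max_right _ _) w hw
  have h3 : (w ^ 8) ^ 6 ≤ 8 ^ 6 * m ^ 6 := by
    calc (w ^ 8) ^ 6 ≤ (8 * m) ^ 6 := pow_le_pow_left₀ (by positivity) h2 6
      _ = _ := by ring
  zify
  calc |w| ^ 48 = (w ^ 8) ^ 6 := by
        rw [← pow_mul]; exact (by decide : Even 48).pow_abs w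
    _ ≤ 8 ^ 6 * m ^ 6 := h3
    _ ≤ 8 ^ 6 * (48 ^ 6 * 23887872 * H) := mul_le_mul_of_nonneg_left h1 (by positivity)
    _ = _ := by ring

open Classical in
/-- the parameters of a curve -/
noncomputable def FF12 (c : ℤ × ℤ) : ℤ × ℤ :=
  if h : ∃ (w : ℤ × ℤ) (s : ℚ), R12 c.1 c.2 w.1 w.2 s then h.choose else (0, 0)

theorem FF12_spec {c : ℤ × ℤ} {H : ℕ} (hc : c ∈ Cc 12 H) :
    ∃ s : ℚ, R12 c.1 c.2 (FF12 c).1 (FF12 c).2 s := by
  obtain ⟨hD, _, _, _, hT⟩ := memCc hc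
  have h : ∃ (w : ℤ × ℤ) (s : ℚ), R12 c.1 c.2 w.1 w.2 s := by
    obtain ⟨u, v, s, hR⟩ := exR12 hD hT
    exact ⟨(u, v), s, hR⟩
  unfold FF12
  rw [dif_pos h]
  exact h.choose_spec

theorem par12c_of (h : ISO) : PAR12c := by
  refine ⟨8 ^ 6 * (48 ^ 6 * 23887872), FF12, fun H => ⟨?_, ?_⟩⟩
  · intro c hc c' hc' hcc
    obtain ⟨s, hR⟩ := FF12_spec hc
    obtain ⟨s', hR'⟩ := FF12_spec hc'
    rw [← hcc] at hR'
    have hc1 := memCc (Finset.mem_coe.mp hc)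
    have hc1' := memCc (Finset.mem_coe.mp hc')
    obtain ⟨h1, h2⟩ := injG hR'.c0 hR.ea hR.eb hR'.ea hR'.eb hc1.2.2.2.1 hc1'.2.2.2.1
    exact Prod.ext h1 h2
  · intro c hc
    obtain ⟨s, hR⟩ := FF12_spec hc
    have hc1 := memCc hc
    have hM0 : M12 (FF12 c).1 (FF12 c).2 ≠ 0 := by
      unfold M12
      exact neg_ne_zero.mpr (mul_ne_zero (mul_ne_zero (by norm_num) (pow_ne_zero 6 hR.u0))
        (pow_ne_zero 2 hR.v0))
    have hD0 : Dd (FF12 c).1 (FF12 c).2 ≠ 0 := by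
      unfold Dd
      refine mul_ne_zero (pow_ne_zero 3 hR.uv) ?_
      have h1 : 0 < (FF12 c).1 ^ 2 := by have := hR.u0; positivity
      have h2 : 0 < (FF12 c).2 ^ 2 := by have := hR.v0; positivity
      intro h
      linarith
    refine ⟨hR.cop, hM0, hR.n0, ?_, bound12 hR H hc1.2.1 hc1.2.2.1 _ (Or.inl rfl),
      bound12 hR H hc1.2.1 hc1.2.2.1 _ (Or.inr rfl),
      fin_leG h hR.c0 hR.ea hR.eb hD0 hM0 hR.n0 (PM _ _) (PN _ _)⟩
    intro hMN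
    apply hD0
    have h1 := PM (FF12 c).1 (FF12 c).2
    have h2 := PN (FF12 c).1 (FF12 c).2
    rw [hMN] at h1
    linarith

/-- PAR12c -/
theorem par12c : PAR12c := par12c_of Pool.Agent.W261.RT.iso

end Pool.Agent.L0h98.T12
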