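import Pool.Agent.L0h5.T8.Stm2
import Pool.Agent.L0h98.T8.Low8

/-!
# Points of order four and three; the curves `y² = x (x² + P/4 x + T²/16)`
-/

set_option autoImplicit false

namespace Pool.Agent.L0h98.T12

open Pool.Agent.W307.RT Pool.Agent.W262.RK WeierstrassCurve.Affine Pool.Agent.W135.RT
  Pool.Agent.L0h5.T8 Pool.Agent.L0h98.T8

/-- the algebra of the points of order four -/
theorem alg4 {A B : ℤ} (Q : (Sh A B).toAffine.Point) (hQ : addOrderOf Q = 4) :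
    ∃ e s t : ℚ, t ≠ 0 ∧ s ≠ 0 ∧ e ^ 3 + A * e + B = 0 ∧ t ^ 2 = 3 * e ^ 2 + A ∧
      s ^ 2 = 3 * e + 2 * t := by
  have h4 : addOrderOf (2 • Q) = 2 := by
    rw [addOrderOf_nsmul' Q (by norm_num), hQ]; norm_num
  obtain ⟨e, he, hPe, hroot⟩ := ord2 _ h4
  have e12 : Q + Q = 2 • Q := (two_nsmul Q).symm
  have n2 : 2 • Q ≠ 0 := by
    intro h; rw [h, addOrderOf_zero] at h4; omega
  rcases Q with _ | ⟨x₂, y₂, n₂⟩
  · exfalso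
    apply n2
    exact nsmul_zero 2
  have hy2' : y₂ ≠ 0 := yne n₂ (by rw [e12]; exact n2)
  obtain ⟨s, x₄, y₄, n₄, ha2, hm2, hx4, hy4⟩ := dbl n₂ hy2'
  rw [e12, hPe] at ha2
  rw [Point.some.injEq] at ha2
  obtain ⟨q1, q2⟩ := ha2
  rw [← q1] at hx4 hy4
  rw [← q2] at hy4
  have k1 : y₂ = s * (x₂ - e) := by linarith
  have ht0 : x₂ - e ≠ 0 := by
    intro h
    apply hy2'
    rw [k1, h, mul_zero]
  have hs0 : s ≠ 0 := by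
    intro h
    apply hy2'
    rw [k1, h, zero_mul]
  have k2 : s ^ 2 = e + 2 * x₂ := by linarith
  have k3 : (x₂ - e) ^ 2 = 3 * e ^ 2 + A := by
    rw [k1] at hm2
    linear_combination hm2 - 2 * (x₂ - e) * k2
  have k4 : s ^ 2 = 3 * e + 2 * (x₂ - e) := by linarith
  exact ⟨e, s, x₂ - e, ht0, hs0, hroot, k3, k4⟩

/-- the algebra of the points of order twelve -/
theorem alg12 {A B : ℤ} (hT : HasP 12 (Sh A B)) :
    ∃ e s t w r : ℚ, t ≠ 0 ∧ s ≠ 0 ∧ w ≠ 0 ∧ e ^ 3 + A * e + B = 0 ∧ t ^ 2 = 3 * e ^ 2 + A ∧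
      s ^ 2 = 3 * e + 2 * t ∧ t = r * w ∧ (2 * w * s) ^ 2 = (r - w) ^ 3 * (r + 3 * w) := by
  obtain ⟨P, hP⟩ := hT
  have h3 : addOrderOf (4 • P) = 3 := by
    rw [addOrderOf_nsmul' P (by norm_num), hP]; norm_num
  have h4 : addOrderOf (3 • P) = 4 := by
    rw [addOrderOf_nsmul' P (by norm_num), hP]; norm_num
  obtain ⟨e, s, t, ht, hs, hroot, h1, h2⟩ := alg4 _ h4
  obtain ⟨x, y, hy, g1, g2⟩ := ord3 _ h3
  set m : ℚ := (3 * x ^ 2 + A) / (2 * y) with hm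
  have m1 : 2 * m * y = 3 * x ^ 2 + A := by rw [hm]; field_simp
  have m2 : m ^ 2 = 3 * x := by
    have hy2 : (2 * y) ^ 2 ≠ 0 := by positivity
    apply mul_right_cancel₀ hy2
    have : m ^ 2 * (2 * y) ^ 2 = (2 * m * y) ^ 2 := by ring
    rw [this, m1, g2]
    ring
  have hA : (A : ℚ) = t ^ 2 - 3 * e ^ 2 := by linarith
  have hB : (B : ℚ) = -(e ^ 3 + A * e) := by linarith
  rw [hB, hA] at g1
  rw [hA] at m1
  have hX : x - e ≠ 0 := by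
    intro h
    apply hy
    have h2 : y ^ 2 = 0 := by
      rw [g1]
      have : x = e := by linarith
      rw [this]; ring
    exact pow_eq_zero_iff (two_ne_zero) |>.mp h2
  have n1 : (y - m * (x - e)) ^ 2 = (x - e) ^ 3 := by
    linear_combination g1 - (x - e) * m1 + (x - e) ^ 2 * m2
  set w : ℚ := (y - m * (x - e)) / (x - e) with hw
  have w1 : y - m * (x - e) = w * (x - e) := by rw [hw]; field_simp
  have w2 : w ^ 2 = x - e := by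
    rw [w1] at n1
    apply mul_right_cancel₀ (pow_ne_zero 2 hX)
    linear_combination n1
  have hw0 : w ≠ 0 := by
    intro h
    apply hX
    rw [← w2, h]; ring
  have t1 : t ^ 2 = w ^ 3 * (2 * m + 3 * w) := by
    linear_combination (2 * m) * w1 - m1 + 2 * (x - e) * m2 -
      (2 * m * w + 3 * (w ^ 2 + (x - e))) * w2
  refine ⟨e, s, t, w, t / w, ht, hs, hw0, hroot, h1, h2, by field_simp, ?_⟩
  set r : ℚ := t / w with hr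
  have r1 : t = r * w := by rw [hr]; field_simp
  have r2 : r ^ 2 = w * (2 * m + 3 * w) := by
    rw [r1] at t1
    apply mul_right_cancel₀ (pow_ne_zero 2 hw0)
    linear_combination t1
  have r3 : 2 * w * m = r ^ 2 - 3 * w ^ 2 := by linear_combination -r2
  have r4 : s ^ 2 = m ^ 2 - 3 * w ^ 2 + 2 * r * w := by
    linear_combination h2 - m2 + 3 * w2 + 2 * r1
  calc (2 * w * s) ^ 2 = 4 * w ^ 2 * s ^ 2 := by ring
    _ = (2 * w * m) ^ 2 - 12 * w ^ 4 + 8 * r * w ^ 3 := by rw [r4]; ring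
    _ = _ := by rw [r3]; ring

/-- the rank inequality for the curves `y² = x (x² + P/4 x + T²/16)` -/
theorem fin_leG (h : ISO) {A B P T M N : ℤ} {c : ℚ} (hs : c ≠ 0)
    (ea : 48 * (A : ℚ) = c ^ 4 * (3 * (T : ℚ) ^ 2 - (P : ℚ) ^ 2))
    (eb : 1728 * (B : ℚ) = c ^ 6 * ((P : ℚ) * (2 * (P : ℚ) ^ 2 - 9 * (T : ℚ) ^ 2)))
    (hT : T ≠ 0) (hM0 : M ≠ 0) (hN0 : N ≠ 0) (hM : P + 2 * T = -(4 * M))
    (hN : P - 2 * T = -(4 * N)) :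
    Module.finrank ℤ (Sh A B).toAffine.Point ≤
      Module.finrank ℤ (EAB (-M) (-N)).toAffine.Point := by
  set r : ℚ := c ^ 2 * (P : ℚ) / 12 with hr
  obtain ⟨e⟩ := h 0 (A : ℚ) (B : ℚ) r c hs
  have h1 : (⟨0, (0 + 3 * r) / c ^ 2, 0, ((A : ℚ) + 2 * r * 0 + 3 * r ^ 2) / c ^ 4,
      ((B : ℚ) + r * A + r ^ 2 * 0 + r ^ 3) / c ^ 6⟩ : WeierstrassCurve ℚ) =
      ⟨0, (P : ℚ) / 4, 0, (T : ℚ) ^ 2 / 16, 0⟩ := by
    have e1 : (0 + 3 * r) / c ^ 2 = (P : ℚ) / 4 := by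
      rw [hr]; field_simp; ring
    have e2 : ((A : ℚ) + 2 * r * 0 + 3 * r ^ 2) / c ^ 4 = (T : ℚ) ^ 2 / 16 := by
      rw [div_eq_iff (pow_ne_zero 4 hs), hr]
      linear_combination (1 / 48) * ea
    have e3 : ((B : ℚ) + r * A + r ^ 2 * 0 + r ^ 3) / c ^ 6 = 0 := by
      rw [div_eq_zero_iff]; left
      rw [hr]
      linear_combination (1 / 1728) * eb + (c ^ 2 * (P : ℚ) / 12) * (1 / 48) * ea
    rw [e1, e2, e3]
  have h2 := (e.toIntLinearEquiv).finrank_eq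
  have h3 : (Sh A B) = (⟨0, 0, 0, (A : ℚ), (B : ℚ)⟩ : WeierstrassCurve ℚ) := rfl
  rw [h3, h2, h1]
  have hT0 : (T : ℚ) ≠ 0 := by exact_mod_cast hT
  have hM' : (P : ℚ) + 2 * T = -(4 * M) := by exact_mod_cast hM
  have hN' : (P : ℚ) - 2 * T = -(4 * N) := by exact_mod_cast hN
  have hdis : ((P : ℚ) / 4) ^ 2 - 4 * ((T : ℚ) ^ 2 / 16) = (M : ℚ) * (N : ℚ) := by
    linear_combination (1 / 16) * ((P : ℚ) - 2 * T) * hM' - (1 / 4) * M * hN'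
  have hMN : (M : ℚ) * (N : ℚ) ≠ 0 := by
    have : M * N ≠ 0 := mul_ne_zero hM0 hN0
    exact_mod_cast this
  refine (isog2 ((P : ℚ) / 4) ((T : ℚ) ^ 2 / 16) (by positivity) (by
    rw [hdis]; exact hMN)).trans ?_
  apply le_of_eq
  have h4 : (⟨0, -2 * ((P : ℚ) / 4), 0, ((P : ℚ) / 4) ^ 2 - 4 * ((T : ℚ) ^ 2 / 16),
      0⟩ : WeierstrassCurve ℚ) = EAB (-M) (-N) := by
    rw [hdis]
    unfold EAB
    push_cast
    congr 1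
    · linear_combination (-1 / 4) * hM' + (-1 / 4) * hN'
    · ring
  rw [h4]

/-- the bound of the forms -/
theorem bndG {A B P T : ℤ} {c : ℚ} (hc : 1 ≤ 48 * c ^ 2)
    (ea : 48 * (A : ℚ) = c ^ 4 * (3 * (T : ℚ) ^ 2 - (P : ℚ) ^ 2))
    (eb : 1728 * (B : ℚ) = c ^ 6 * ((P : ℚ) * (2 * (P : ℚ) ^ 2 - 9 * (T : ℚ) ^ 2)))
    (H : ℕ) (hH : 4 * |A| ^ 3 ≤ (H : ℤ)) (hH' : 27 * B ^ 2 ≤ (H : ℤ)) :
    (max |P| |T|) ^ 6 ≤ 48 ^ 6 * 23887872 * H := by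
  set m := max |P| |T| with hm
  have hc2 : 0 ≤ c ^ 2 := sq_nonneg c
  have c4 : 1 ≤ 48 ^ 2 * c ^ 4 := by nlinarith
  have c12 : 1 ≤ 48 ^ 6 * (c ^ 6) ^ 2 := by
    calc (1 : ℚ) = 1 ^ 6 := by norm_num
      _ ≤ (48 * c ^ 2) ^ 6 := pow_le_pow_left₀ (by norm_num) hc 6
      _ = _ := by ring
  have b1 : |3 * T ^ 2 - P ^ 2| ≤ 48 ^ 3 * |A| := by
    have h1 : 48 * |(A : ℚ)| = c ^ 4 * |3 * (T : ℚ) ^ 2 - (P : ℚ) ^ 2| := by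
      have : |48 * (A : ℚ)| = |c ^ 4 * (3 * (T : ℚ) ^ 2 - (P : ℚ) ^ 2)| := by rw [ea]
      rw [abs_mul, abs_mul, abs_of_nonneg (by positivity : (0 : ℚ) ≤ c ^ 4)] at this
      have h2 : |(48 : ℚ)| = 48 := by norm_num
      rwa [h2] at this
    have h2 : |3 * (T : ℚ) ^ 2 - (P : ℚ) ^ 2| ≤ 48 ^ 3 * |(A : ℚ)| := by
      have h3 := abs_nonneg (3 * (T : ℚ) ^ 2 - (P : ℚ) ^ 2)
      calc |3 * (T : ℚ) ^ 2 - (P : ℚ) ^ 2| = 1 * |3 * (T : ℚ) ^ 2 - (P : ℚ) ^ 2| := by ring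
        _ ≤ (48 ^ 2 * c ^ 4) * |3 * (T : ℚ) ^ 2 - (P : ℚ) ^ 2| :=
          mul_le_mul_of_nonneg_right c4 h3
        _ = 48 ^ 2 * (48 * |(A : ℚ)|) := by rw [h1]; ring
        _ = _ := by ring
    exact_mod_cast h2
  have b2 : (P * (2 * P ^ 2 - 9 * T ^ 2)) ^ 2 ≤ 48 ^ 6 * (1728 ^ 2 * B ^ 2) := by
    have h1 : (1728 * (B : ℚ)) ^ 2 = (c ^ 6) ^ 2 * ((P : ℚ) * (2 * (P : ℚ) ^ 2 -
        9 * (T : ℚ) ^ 2)) ^ 2 := by rw [eb]; ring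
    have h2 : ((P : ℚ) * (2 * (P : ℚ) ^ 2 - 9 * (T : ℚ) ^ 2)) ^ 2 ≤
        48 ^ 6 * (1728 ^ 2 * (B : ℚ) ^ 2) := by
      have h3 := sq_nonneg ((P : ℚ) * (2 * (P : ℚ) ^ 2 - 9 * (T : ℚ) ^ 2))
      calc ((P : ℚ) * (2 * (P : ℚ) ^ 2 - 9 * (T : ℚ) ^ 2)) ^ 2 =
          1 * ((P : ℚ) * (2 * (P : ℚ) ^ 2 - 9 * (T : ℚ) ^ 2)) ^ 2 := by ring
        _ ≤ (48 ^ 6 * (c ^ 6) ^ 2) * ((P : ℚ) * (2 * (P : ℚ) ^ 2 - 9 * (T : ℚ) ^ 2)) ^ 2 :=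
          mul_le_mul_of_nonneg_right c12 h3
        _ = 48 ^ 6 * (1728 * (B : ℚ)) ^ 2 := by rw [h1]; ring
        _ = _ := by ring
    exact_mod_cast h2
  rcases bnd P T with h | h
  · have h1 : |3 * T ^ 2 - P ^ 2| ^ 3 ≤ (48 ^ 3 * |A|) ^ 3 :=
      pow_le_pow_left₀ (abs_nonneg _) b1 3
    have h2 : (0 : ℤ) ≤ |A| ^ 3 := by positivity
    calc m ^ 6 ≤ 216 * |3 * T ^ 2 - P ^ 2| ^ 3 := h
      _ ≤ 216 * (48 ^ 3 * |A|) ^ 3 := by linarith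
      _ = 48 ^ 6 * 23887872 * |A| ^ 3 := by ring
      _ ≤ 48 ^ 6 * 23887872 * H := by linarith
  · have h2 : (0 : ℤ) ≤ B ^ 2 := by positivity
    calc m ^ 6 ≤ 4 * (P * (2 * P ^ 2 - 9 * T ^ 2)) ^ 2 := h
      _ ≤ 4 * (48 ^ 6 * (1728 ^ 2 * B ^ 2)) := by linarith
      _ ≤ 48 ^ 6 * 23887872 * H := by linarith

/-- the curve is determined by the forms -/
theorem injG {A B A' B' P T : ℤ} {s s' : ℚ} (hs0 : s' ≠ 0)
    (ea : 48 * (A : ℚ) = s ^ 4 * (3 * (T : ℚ) ^ 2 - (P : ℚ) ^ 2))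
    (eb : 1728 * (B : ℚ) = s ^ 6 * ((P : ℚ) * (2 * (P : ℚ) ^ 2 - 9 * (T : ℚ) ^ 2)))
    (ea' : 48 * (A' : ℚ) = s' ^ 4 * (3 * (T : ℚ) ^ 2 - (P : ℚ) ^ 2))
    (eb' : 1728 * (B' : ℚ) = s' ^ 6 * ((P : ℚ) * (2 * (P : ℚ) ^ 2 - 9 * (T : ℚ) ^ 2)))
    (hmin : ∀ p : ℕ, p.Prime → ¬ ((p : ℤ) ^ 4 ∣ A ∧ (p : ℤ) ^ 6 ∣ B))
    (hmin' : ∀ p : ℕ, p.Prime → ¬ ((p : ℤ) ^ 4 ∣ A' ∧ (p : ℤ) ^ 6 ∣ B')) : A = A' ∧ B = B' := by
  set σ : ℚ := s / s' with hσ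
  have hs : s = σ * s' := by rw [hσ]; field_simp
  have h1 : (A : ℚ) = σ ^ 4 * A' := by
    rw [hs] at ea
    linear_combination (1 / 48) * ea - (1 / 48) * σ ^ 4 * ea'
  have h2 : (B : ℚ) = σ ^ 6 * B' := by
    rw [hs] at eb
    linear_combination (1 / 1728) * eb - (1 / 1728) * σ ^ 6 * eb'
  have hσ2 : σ * ((σ.den : ℤ) : ℚ) = (σ.num : ℚ) := by
    exact_mod_cast Rat.mul_den_eq_num σ
  have h3 : A * (σ.den : ℤ) ^ 4 = σ.num ^ 4 * A' := by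
    have : (A : ℚ) * ((σ.den : ℤ) : ℚ) ^ 4 = (σ.num : ℚ) ^ 4 * A' := by
      rw [h1, ← hσ2]; ring
    exact_mod_cast this
  have h4 : B * (σ.den : ℤ) ^ 6 = σ.num ^ 6 * B' := by
    have : (B : ℚ) * ((σ.den : ℤ) : ℚ) ^ 6 = (σ.num : ℚ) ^ 6 * B' := by
      rw [h2, ← hσ2]; ring
    exact_mod_cast this
  have hcop : IsCoprime (σ.den : ℤ) σ.num := by
    rw [Int.isCoprime_iff_gcd_eq_one, Int.gcd_comm]
    exact σ.reduced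
  have h5 : ((σ.den : ℤ)).natAbs = 1 :=
    minim hmin' _ _ hcop ⟨A, by rw [← h3]; ring⟩ ⟨B, by rw [← h4]; ring⟩
  have h6 : (σ.num).natAbs = 1 :=
    minim hmin _ _ hcop.symm ⟨A', by rw [← h3]; ring⟩ ⟨B', by rw [← h4]; ring⟩
  have h7 : (σ.den : ℤ) = 1 := by omega
  rw [h7] at h3 h4
  have h8 : σ.num = 1 ∨ σ.num = -1 := by omega
  rcases h8 with h8 | h8 <;> rw [h8] at h3 h4 <;> constructor <;> linarith

end Pool.Agent.L0h98.T12
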